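import Pool.Agent.H277.MUClasses

/-!
Mazur-Ulam theorem for locally convex F-spaces without bounded dyadic trees.

A dyadic tree in `E` is a family `x` of points indexed by the finite words in two letters such
that the point at a word `l` is the midpoint of the points at its two successors. Spaces whose
bounded sets are dentable (in particular spaces with the Radon-Nikodym property, reflexive
Frechet spaces, separable duals) contain no bounded dyadic tree whose steps all have length at
least a fixed positive number; see `Pool.Agent.H277.MU.midDent_of_dentable`,
`Pool.Agent.H277.MU.midDent_of_weaklyCompact` and `Pool.Agent.H277.MU.midDent_of_coarser`.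
-/

set_option autoImplicit false

open Set

namespace Pool.Agent.Results.MP_1410a0_an.NoBoundedTree

/-- In `E` there is no bounded infinite dyadic tree with all steps of length at least some fixed
`ε > 0`. The tree is indexed by finite lists of Booleans, the length of a vector `v` is its
distance to `0` in the given invariant metric, and bounded means absorbed by every neighbourhood
of `0`. -/
def TreeFree (E : Type*) [NormedAddCommGroup E] [Module ℝ E] : Prop :=
  ∀ ε : ℝ, 0 < ε → ∀ x : List Bool → E, Bornology.IsVonNBounded ℝ (range x) →
    (∀ l, x (true :: l) + x (false :: l) = (2 : ℝ) • x l) →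
    ∃ l, ‖x (true :: l) - x l‖ < ε

/-- Let `E` be a real locally convex F-space (any complete invariant metric) without bounded
infinite dyadic trees with steps bounded below. Then every isometry of `E` onto an arbitrary
F-space `F` sending `0` to `0` is linear. (Completeness of the metrics is not needed.) -/
theorem result {E F : Type*}
    [NormedAddCommGroup E] [Module ℝ E] [ContinuousSMul ℝ E] [LocallyConvexSpace ℝ E]
    [NormedAddCommGroup F] [Module ℝ F] [ContinuousSMul ℝ F]
    (hE : TreeFree E)
    (f : E → F) (hf : Isometry f) (hs : Function.Surjective f) (h0 : f 0 = 0) :
    ∃ g : E →ₗ[ℝ] F, ∀ x : E, g x = f x := by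
  refine Pool.Agent.H277.MU.linear_of_midDent
    (Pool.Agent.H277.MU.midDent_of_noTree fun ε hε x hx hl => hE ε hε x hx fun l => ?_)
    f hf hs h0
  rw [hl l, two_smul]

end Pool.Agent.Results.MP_1410a0_an.NoBoundedTree
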