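import Pool.Agent.H277.MUClasses

set_option autoImplicit false

universe u

namespace Pool.Agent.Results.MP_1410a0_an.SelfIsometries

/-- For an arbitrary real F-space `E` (completeness is not needed) the following are equivalent:
every isometry of `E` onto an arbitrary metric linear space `F` (complete or not) sending `0` to
`0` is linear; and, for every `x` and every `ε > 0` there is an isometry `k` of `E` onto itself
fixing `0` such that every isometry of `E` onto itself fixing `0` and `2 (k x)` moves `k x` by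
less than `ε`. -/
theorem result (E : Type u) [NormedAddCommGroup E] [Module ℝ E] [ContinuousSMul ℝ E] :
    (∀ (F : Type u) [NormedAddCommGroup F] [Module ℝ F] [ContinuousSMul ℝ F] (f : E → F),
      Isometry f → Function.Surjective f → f 0 = 0 → ∃ g : E →ₗ[ℝ] F, ∀ x : E, g x = f x) ↔
    (∀ (x : E) (ε : ℝ), 0 < ε → ∃ k : E → E, Isometry k ∧ Function.Surjective k ∧ k 0 = 0 ∧
      ∀ κ : E → E, Isometry κ → Function.Surjective κ → κ 0 = 0 →
        κ ((2 : ℝ) • k x) = (2 : ℝ) • k x → ‖κ (k x) - k x‖ < ε) := by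
  constructor
  · intro H x ε hε
    refine ⟨fun y => y, isometry_id, Function.surjective_id, rfl, fun κ h1 h2 h3 h4 => ?_⟩
    obtain ⟨g, hg⟩ := H E κ h1 h2 h3
    have h5 : (2 : ℝ) • κ x = (2 : ℝ) • x := by
      rw [← hg x, ← map_smul, hg]
      exact h4
    have h6 : κ x = x := smul_right_injective E (two_ne_zero : (2 : ℝ) ≠ 0) h5
    simpa [h6] using hε
  · intro H F _ _ _ f hf hs h0
    refine Pool.Agent.H277.MU.core (fun x ε hε => ?_) f hf hs h0
    obtain ⟨k, hk1, hk2, hk3, hk⟩ := H x ε hε
    refine ⟨k x, ⟨k, ⟨hk1, hk2, hk3⟩, rfl⟩, fun κ hκ h2 => hk κ hκ.iso hκ.surj hκ.zero ?_⟩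
    rw [two_smul]
    exact h2

end Pool.Agent.Results.MP_1410a0_an.SelfIsometries
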