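import Pool.Agent.H277.MUClasses

set_option autoImplicit false

open Set

namespace Pool.Agent.Results.MP_1410a0_an.Semireflexive

/-- Let `E` be a real locally convex F-space (any complete invariant metric inducing its
topology) in which every bounded set is relatively weakly compact (for a Frechet space: `E` is
reflexive). Then every isometry of `E` onto an arbitrary F-space `F` sending `0` to `0` is linear.
(Completeness of the metrics is not needed.) -/
theorem result {E F : Type*}
    [NormedAddCommGroup E] [Module ℝ E] [ContinuousSMul ℝ E] [LocallyConvexSpace ℝ E]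
    [NormedAddCommGroup F] [Module ℝ F] [ContinuousSMul ℝ F]
    (hE : ∀ B : Set E, Bornology.IsVonNBounded ℝ B →
      IsCompact (closure (toWeakSpace ℝ E '' B)))
    (f : E → F) (hf : Isometry f) (hs : Function.Surjective f) (h0 : f 0 = 0) :
    ∃ g : E →ₗ[ℝ] F, ∀ x : E, g x = f x :=
  Pool.Agent.H277.MU.linear_of_midDent
    (Pool.Agent.H277.MU.midDent_of_weaklyCompact hE) f hf hs h0

end Pool.Agent.Results.MP_1410a0_an.Semireflexive
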